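import Pool.Agent.Helper78.FF.Wall5
import Pool.Agent.Helper27.FFLow.Graph

/-!
The performance ratio of First-Fit on interval graphs is exactly `5`.

The definitions `IsIntervalGraph`, `firstFit`, `chiFF` and `f` are those at the beginning of
`Pool/Agent/Helper27/FFLow/Graph.lean`:

* `IsIntervalGraph G`: the vertices can be identified with closed intervals of the line, two
  distinct vertices being adjacent exactly when their intervals intersect;
* `firstFit G e i`: the First-Fit colour of the `i`-th vertex of the ordering `e`;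
* `chiFF G`: the largest number of colours First-Fit uses on `G`, over all orderings;
* `f k`: the maximum of `chiFF G` over all interval graphs with clique number `k`.
-/

namespace Pool.Agent.Results.MP_c8012d_co.FirstFitRatioFive

open Finset Pool.Agent.Helper27.FFLow

/-- The asymptotic performance ratio `R = limsup f(k)/k`. -/
noncomputable def R : ℝ := Filter.limsup (fun k : ℕ => (f k : ℝ) / k) Filter.atTop

/-! ### First-Fit colourings -/

section ff

variable {n : ℕ} (G : SimpleGraph (Fin n)) (e : Equiv.Perm (Fin n))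

lemma ff_set_nonempty (i : Fin n) :
    {c : ℕ | 1 ≤ c ∧ ∀ j : Fin n, ∀ _h : j < i,
      G.Adj (e j) (e i) → firstFit G e j ≠ c}.Nonempty := by
  refine ⟨(univ.sup fun j : Fin n => firstFit G e j) + 1, by omega, fun j _ _ h => ?_⟩
  have : firstFit G e j ≤ univ.sup fun j : Fin n => firstFit G e j :=
    le_sup (f := fun j : Fin n => firstFit G e j) (mem_univ j)
  omega

lemma ff_mem (i : Fin n) : firstFit G e i ∈
    {c : ℕ | 1 ≤ c ∧ ∀ j : Fin n, ∀ _h : j < i, G.Adj (e j) (e i) → firstFit G e j ≠ c} := by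
  rw [firstFit]
  exact Nat.sInf_mem (ff_set_nonempty G e i)

lemma ff_support (i : Fin n) {s : ℕ} (hs : 1 ≤ s) (hlt : s < firstFit G e i) :
    ∃ j, G.Adj (e j) (e i) ∧ firstFit G e j = s := by
  by_contra hcon
  push Not at hcon
  have h1 : s ∈ {c : ℕ | 1 ≤ c ∧ ∀ j : Fin n, ∀ _h : j < i,
      G.Adj (e j) (e i) → firstFit G e j ≠ c} := ⟨hs, fun j _ hadj => hcon j hadj⟩
  have h2 := Nat.sInf_le h1
  rw [firstFit] at hlt
  omega

lemma ff_proper {i j : Fin n} (h : G.Adj (e i) (e j)) : firstFit G e i ≠ firstFit G e j := by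
  rcases lt_trichotomy i j with hij | hij | hij
  · exact (ff_mem G e j).2 i hij h
  · subst hij
    exact (G.irrefl h).elim
  · exact ((ff_mem G e i).2 j hij h.symm).symm

end ff

lemma firstFit_le {n : ℕ} {G : SimpleGraph (Fin n)} (hG : IsIntervalGraph G)
    (e : Equiv.Perm (Fin n)) (i : Fin n) : firstFit G e i ≤ 5 * G.cliqueNum := by
  classical
  obtain ⟨a, b, hab, hadj⟩ := hG
  have hK : ∀ x : ℝ, ∀ s : Finset (Fin n), (∀ v ∈ s, x ∈ Set.Icc (a v) (b v)) →
      s.card ≤ G.cliqueNum := by
    intro x s hs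
    have hcl : G.IsClique (s : Set (Fin n)) := by
      intro u hu v hv huv
      exact (hadj u v).2 ⟨huv, x, hs u hu, hs v hv⟩
    exact hcl.card_le_cliqueNum
  have key := Pool.Agent.Helper78.FF.wall_real (a := a) (b := b)
    (col := fun v => firstFit G e (e.symm v)) hab
    (fun v w hvw hc hne => by
      have h1 : G.Adj (e (e.symm v)) (e (e.symm w)) := by simpa using (hadj v w).2 ⟨hvw, hne⟩
      exact ff_proper G e h1 hc)
    (fun v s hs hlt => by
      obtain ⟨j, hj1, hj2⟩ := ff_support G e (e.symm v) hs hlt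
      refine ⟨e j, by simpa using hj2, ?_⟩
      have := ((hadj _ _).1 hj1.symm).2
      simpa using this) G.cliqueNum hK (e i) (by simpa using (ff_mem G e i).1)
  simpa using key

lemma chiFF_le {n : ℕ} {G : SimpleGraph (Fin n)} (hG : IsIntervalGraph G) :
    chiFF G ≤ 5 * G.cliqueNum := by
  classical
  unfold chiFF
  refine Finset.sup_le fun e _ => ?_
  have hsub : univ.image (firstFit G e) ⊆ Finset.Icc 1 (5 * G.cliqueNum) := by
    intro c hc
    obtain ⟨i, _, rfl⟩ := mem_image.1 hc
    exact Finset.mem_Icc.2 ⟨(ff_mem G e i).1, firstFit_le hG e i⟩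
  simpa using card_le_card hsub

/-- First-Fit uses at most `5 ω(G)` colours on every interval graph `G`; the constant is optimal;
and the asymptotic performance ratio is `R = lim f(k)/k = 5`. -/
theorem result :
    (∀ (n : ℕ) (G : SimpleGraph (Fin n)), IsIntervalGraph G → chiFF G ≤ 5 * G.cliqueNum) ∧
    (∀ k : ℕ, BddAbove {m : ℕ | ∃ (n : ℕ) (G : SimpleGraph (Fin n)),
      IsIntervalGraph G ∧ G.cliqueNum = k ∧ chiFF G = m}) ∧
    (∀ k : ℕ, f k ≤ 5 * k) ∧
    (∀ r : ℝ, r < 5 → ∃ c : ℝ, ∀ k : ℕ, r * k - c ≤ f k) ∧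
    Filter.Tendsto (fun k : ℕ => (f k : ℝ) / k) Filter.atTop (nhds 5) ∧
    R = 5 := by
  obtain ⟨h1, h2, h3, h4, h5⟩ := final fun n G hG => chiFF_le hG
  exact ⟨fun n G hG => chiFF_le hG, h1, h2, h3, h4, h5⟩

end Pool.Agent.Results.MP_c8012d_co.FirstFitRatioFive
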